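import Pool.Agent.MP_856573_co.H74.Bas

/-! The order of insertion of the objects. -/

namespace Pool.Agent.MP_856573_co.H74

lemma fo_around (P : ℕ → Prop) {u v : ℕ} (h1 : ∃ a ≤ u, P a) (h2 : ∃ b, v ≤ b ∧ P b) :
    ∃ a b, (P a ∧ a ≤ u ∧ ∀ c, P c → c ≤ u → c ≤ a) ∧ P b ∧ v ≤ b ∧ ∀ c, P c → v ≤ c → b ≤ c := by
  classical
  obtain ⟨a, ha, ha'⟩ := h1
  exact ⟨Nat.findGreatest P u, Nat.find h2, ⟨Nat.findGreatest_spec ha ha', Nat.findGreatest_le u,
    fun c hc hu => Nat.le_findGreatest hu hc⟩, (Nat.find_spec h2).2, (Nat.find_spec h2).1,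
    fun c hc hv => Nat.find_min' h2 ⟨hv, hc⟩⟩

/-- No point of an earlier object lies strictly between two points of a later one. -/
lemma fo_rank {O : Type} [Fintype O] {N : ℕ} {sd : O → Bool} {At : O → Finset ℕ} {tie}
    (h : Wk N sd At tie) : ∃ rk mn mx : O → ℕ, Function.Injective rk ∧
      (∀ o, mn o ∈ At o ∧ mx o ∈ At o ∧ mn o < mx o ∧ ∀ a ∈ At o, mn o ≤ a ∧ a ≤ mx o) ∧
      ∀ o o', sd o' = sd o → rk o' < rk o → ∀ p ∈ At o', p ≤ mn o ∨ mx o ≤ p := by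
  classical
  have ne : ∀ o, (At o).Nonempty := fun o => Finset.card_pos.1 (by have := h.two o; omega)
  let mn := fun o => (At o).min' (ne o)
  let mx := fun o => (At o).max' (ne o)
  have hm : ∀ o, mn o ∈ At o ∧ mx o ∈ At o ∧ mn o < mx o ∧ ∀ a ∈ At o, mn o ≤ a ∧ a ≤ mx o :=
    fun o => ⟨Finset.min'_mem _ _, Finset.max'_mem _ _, Finset.min'_lt_max'_of_card _ (h.two o),
      fun a ha => ⟨Finset.min'_le _ _ ha, Finset.le_max' _ _ ha⟩⟩
  let key : O → ℕ ×ₗ ℕ ×ₗ ℕ ×ₗ ℕ := fun o =>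
    toLex (N - mx o, toLex (mn o, toLex ((At o).card, Fintype.equivFin O o)))
  have hk : Function.Injective key := fun a b e => (Fintype.equivFin O).injective
    (Fin.ext (congrArg (fun x : ℕ ×ₗ ℕ ×ₗ ℕ ×ₗ ℕ => (ofLex (ofLex (ofLex x).2).2).2) e))
  let _ := LinearOrder.lift' key hk
  refine ⟨fun o => (monoEquivOfFin O rfl).symm o, mn, mx, fun a b e =>
    (monoEquivOfFin O rfl).symm.injective (Fin.ext e), hm, fun o o' hs hr p hp => ?_⟩
  have h1 : key o' < key o := (monoEquivOfFin O rfl).symm.lt_iff_lt.1 hr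
  have hne : o ≠ o' := fun e => h1.ne (e ▸ rfl)
  simp only [key, Prod.Lex.toLex_lt_toLex] at h1
  by_contra hc
  obtain ⟨a1, a2, a3, a4⟩ := hm o
  obtain ⟨b1, b2, b3, b4⟩ := hm o'
  have n1 := h.nc o o' hne hs.symm
  have n2 := h.nc o' o hne.symm hs
  have r1 := h.rng o _ a2
  have r2 := h.rng o' _ b2
  have e1 : mx o = mx o' := by_contra fun k =>
    n1 _ a1 _ a2 _ hp _ b2 (by omega) (by omega) (by omega)
  have e2 : mn o = mn o' := by_contra fun k =>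
    n2 _ b1 _ hp _ a1 _ a2 (by omega) (by omega) (by omega)
  have three : ∀ s : Finset ℕ, mn o ∈ s → mx o ∈ s → p ∈ s → 2 < s.card := fun s c1 c2 c3 =>
    Finset.two_lt_card_iff.2 ⟨_, _, _, c1, c2, c3, by omega, by omega, by omega⟩
  have h2 := three _ (e2 ▸ b1) (e1 ▸ b2) hp
  obtain ⟨r, hr, r3⟩ := Finset.exists_mem_notMem_of_card_lt_card
    (show ({mn o, mx o} : Finset ℕ).card < (At o).card from
      Finset.card_le_two.trans_lt (by omega))
  simp only [Finset.mem_insert, Finset.mem_singleton, not_or] at r3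
  have r4 := a4 r hr
  rcases lt_trichotomy r p with k | rfl | k
  · exact n2 _ b1 _ hp _ hr _ a2 (by omega) k (by omega)
  · exact (three _ (Finset.mem_inter.2 ⟨a1, e2 ▸ b1⟩) (Finset.mem_inter.2 ⟨a2, e1 ▸ b2⟩)
      (Finset.mem_inter.2 ⟨hr, hp⟩)).not_ge (h.n3 o o' hne hs.symm)
  · exact n1 _ a1 _ hr _ hp _ b2 (by omega) k (by omega)

theorem fo : StmtFO := by
  intro O _ N sd At tie h
  obtain ⟨rk, mn, mx, hi, hm, hP⟩ := fo_rank h
  let Pt : O → ℕ → Prop := fun o a => a = 0 ∨ a = N ∨ ∃ o', sd o' = sd o ∧ rk o' < rk o ∧ a ∈ At o'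
  have hN : ∀ o, 0 < mn o ∧ mx o < N := fun o => ⟨(h.rng o _ (hm o).1).1, (h.rng o _ (hm o).2.1).2⟩
  choose L R hL hR1 hR2 hR3 using fun o => fo_around (Pt o) (u := mn o) (v := mx o)
    ⟨0, Nat.zero_le _, Or.inl rfl⟩ ⟨N, (hN o).2.le, Or.inr (Or.inl rfl)⟩
  have lr : ∀ o, L o < R o ∧ R o ≤ N := fun o => ⟨(hL o).2.1.trans_lt ((hm o).2.2.1.trans_le (hR2 o)),
    hR3 o N (Or.inr (Or.inl rfl)) (hN o).2.le⟩
  have mem : ∀ o, ∀ a ∈ At o, L o ≤ a ∧ a ≤ R o := fun o a ha =>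
    ⟨(hL o).2.1.trans ((hm o).2.2.2 a ha).1, ((hm o).2.2.2 a ha).2.trans (hR2 o)⟩
  have G : ∀ o a, Pt o a → a ≤ L o ∨ R o ≤ a := fun o a ha => by
    refine Or.imp ((hL o).2.2 a ha) (hR3 o a ha) ?_
    rcases ha with rfl | rfl | ⟨o', h1, h2, h3⟩
    exacts [Or.inl (Nat.zero_le _), Or.inr (hN o).2.le, hP o o' h1 h2 a h3]
  have ext : ∀ o o', sd o' = sd o → rk o' < rk o → ∀ a, Ext At L R o' a → Pt o a := by
    intro o o' h1 h2 a ha
    have : ∀ a, Pt o' a → Pt o a := fun a => Or.imp_right (Or.imp_right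
      fun ⟨y, k1, k2, k3⟩ => ⟨y, k1.trans h1, k2.trans h2, k3⟩)
    rcases ha with ha | rfl | rfl
    exacts [Or.inr (Or.inr ⟨o', h1, h2, ha⟩), this _ (hL o').1, this _ (hR1 o')]
  have first : ∀ o, (∀ o', sd o' = sd o → rk o ≤ rk o') → L o = 0 ∧ R o = N := fun o ho => by
    have : ∀ a, Pt o a → a = 0 ∨ a = N := fun a =>
      Or.imp_right fun k => k.elim id fun ⟨y, k1, k2, _⟩ => absurd k2 (ho y k1).not_gt
    have h1 := this _ (hL o).1
    have h2 := this _ (hR1 o)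
    have h3 := lr o
    omega
  let C : O → Set O := fun o => {y | sd y = sd o ∧ rk y < rk o ∧ L y ≤ L o ∧ R o ≤ R y}
  have : ∀ o, ∃ x : Option O, (x = none → ∀ y, y ∉ C o) ∧
      ∀ z, x = some z → z ∈ C o ∧ ∀ y ∈ C o, rk y ≤ rk z := fun o => by
    rcases (C o).eq_empty_or_nonempty with e | e
    · exact ⟨none, fun _ => by simp [e], by simp⟩
    · obtain ⟨z, hz⟩ := Set.exists_max_image _ rk (Set.toFinite _) e
      exact ⟨some z, by simp, by rintro _ ⟨⟩; exact hz⟩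
  choose par p1 p2 using this
  refine ⟨rk, L, R, par, hi, lr, mem, fun o => ?_, fun o => ?_,
    fun o o' h1 h2 a ha => G o a (ext o o' h1 h2 a ha), fun o ho => ?_, fun o z ho => ?_⟩
  · exact (hL o).1.imp_right fun k => k.resolve_left (by have := lr o; omega)
  · exact ((hR1 o).resolve_left (by have := lr o; omega))
  · obtain ⟨y, h1, h2⟩ := Set.exists_min_image {y | sd y = sd o} rk (Set.toFinite _) ⟨o, rfl⟩
    have h3 := first y fun o' k => h2 o' (k.trans h1)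
    have h4 : ∀ o', sd o' = sd o → rk o ≤ rk o' := fun o' k => le_trans (not_lt.1 fun k' =>
      p1 o ho y ⟨h1, k', h3.1 ▸ Nat.zero_le _, h3.2 ▸ (lr o).2⟩) (h2 o' k)
    exact ⟨(first o h4).1, (first o h4).2, h4⟩
  · obtain ⟨⟨z1, z2, z3, z4⟩, z5⟩ := p2 o z ho
    obtain ⟨a, b, ⟨a1, a2, a3⟩, b1, b2, b3⟩ := fo_around (Ext At L R z)
      ⟨_, z3, Or.inr (Or.inl rfl)⟩ ⟨_, z4, Or.inr (Or.inr rfl)⟩
    have a4 := a3 _ (Or.inr (Or.inl rfl)) z3
    have b4 := b3 _ (Or.inr (Or.inr rfl)) z4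
    have zN := (lr z).2
    have out : ∀ y, sd y = sd o → (∀ y', sd y' = sd o → rk y' < rk y → ∀ p ∈ At y',
        p ≤ a ∨ b ≤ p) → ∀ p, Pt y p → p ≤ a ∨ b ≤ p := by
      rintro y k1 k2 p (rfl | rfl | ⟨y', k3, k4, k5⟩)
      exacts [Or.inl (Nat.zero_le _), Or.inr (b4.trans zN), k2 y' (k3.trans k1) k4 p k5]
    have key : ∀ n, n ≤ rk o → ∀ y, sd y = sd o → rk y < n → ∀ p ∈ At y, p ≤ a ∨ b ≤ p := by
      intro n
      induction n with
      | zero => exact fun _ y _ k => absurd k (Nat.not_lt_zero _)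
      | succ n ih =>
        intro hn y k1 k2 p hp
        rcases lt_trichotomy (rk y) (rk z) with k | k | k
        · have := G z p (Or.inr (Or.inr ⟨y, k1.trans z1.symm, k, hp⟩))
          omega
        · obtain rfl := hi k
          exact (G o p (ext o y z1 z2 p (Or.inl hp))).imp (a3 p (Or.inl hp)) (b3 p (Or.inl hp))
        · have h1 := out y k1 fun y' c1 c2 => ih (by omega) y' c1 (by omega)
          have h2 := h1 _ (hL y).1
          have h3 := h1 _ (hR1 y)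
          have h4 := mem y p hp
          have h5 := fun c1 c2 => z5 y ⟨k1, by omega, c1, c2⟩
          omega
    have h1 := out o rfl (key _ le_rfl)
    have h2 := h1 _ (hL o).1
    have h3 := h1 _ (hR1 o)
    have h4 := lr o
    exact ⟨z1, z2, (show a = L o by omega) ▸ a1, (show b = R o by omega) ▸ b1,
      fun y c1 c2 c3 c4 => z5 y ⟨c1, c2, c3, c4⟩⟩

end Pool.Agent.MP_856573_co.H74
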